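import Pool.Agent.M3.FP

/-!
# GM75.Close (row N, 4.3, `JR_v`): from closeness of the labels to the mass of a system of names

`X` = node, `L W` = published label on the index set `W` (a key if `W` is not maximal, a key together with a list if
`W` is maximal), `lo W` = the index sets strictly below `W`, `S W l` = the value `l` of the label carries the name
which the system has on `W`.  Below the maximal index sets names are values of labels (`hlow`).

`mass_of_close`: if at every good point the mass of the cell of all labels is at most `kap` times the product of the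
experts, then the mass of the good points which carry all names is at most `kap` times the product of the relative
densities of the names given the lower names.
-/

set_option autoImplicit false
set_option linter.unusedSectionVars false

namespace Pool.Agent.GM75

open Finset Pool.Agent.PWZ Pool.Agent.M3

noncomputable section

variable {Om κ Wt : Type*} [Fintype Om] [Fintype Wt] [DecidableEq Wt] {Lab : Wt → Type*}

/-- relative density of the name on `W` given the lower names -/
def dens (P : FP Om) (X : Om → κ) (lo : Wt → Finset Wt) (L : (W : Wt) → Om → Lab W)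
    (S : (W : Wt) → Lab W → Prop) (W : Wt) (w : Om) : ℝ :=
  P.ce X (fun v => ind (S W (L W v) ∧ ∀ W' ∈ lo W, S W' (L W' v))) w /
    P.ce X (fun v => ind (∀ W' ∈ lo W, S W' (L W' v))) w

/-- the expert on `W` at the true values of the labels -/
def expert (P : FP Om) (X : Om → κ) (lo : Wt → Finset Wt) (L : (W : Wt) → Om → Lab W) (W : Wt) (w : Om) : ℝ :=
  P.ce X (fun v => ind (L W v = L W w ∧ ∀ W' ∈ lo W, L W' v = L W' w)) w /
    P.ce X (fun v => ind (∀ W' ∈ lo W, L W' v = L W' w)) w

/-- product of experts bounds the mass of the cell -/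
def Close (P : FP Om) (X : Om → κ) (lo : Wt → Finset Wt) (L : (W : Wt) → Om → Lab W) (kap : ℝ) (w : Om) : Prop :=
  P.ce X (fun v => ind (∀ W, L W v = L W w)) w ≤ kap * ∏ W, expert P X lo L W w

theorem ce_ind_nonneg (P : FP Om) (X : Om → κ) (s : Om → Prop) (w : Om) :
    0 ≤ P.ce X (fun v => ind (s v)) w :=
  div_nonneg (P.E_nonneg fun v _ => mul_nonneg (ind_nonneg _) (ind_nonneg _)) (P.m_nonneg X w)

theorem ce_ind_congr (P : FP Om) (X : Om → κ) {s t : Om → Prop} {w : Om}
    (h : ∀ v, P.p v ≠ 0 → X v = X w → (s v ↔ t v)) :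
    P.ce X (fun v => ind (s v)) w = P.ce X (fun v => ind (t v)) w := by
  unfold FP.ce
  congr 1
  refine P.E_congr fun v hv => ?_
  beta_reduce
  by_cases hx : X v = X w
  · by_cases hs : s v
    · rw [ind_of hs, ind_of ((h v hv hx).1 hs)]
    · rw [ind_not hs, ind_not fun ht => hs ((h v hv hx).2 ht)]
  · rw [ind_not hx, zero_mul, zero_mul]

theorem ce_ind_sum_le (P : FP Om) (X : Om → κ) {α : Type*} (I : Finset α) (s : Om → Prop) (t : α → Om → Prop)
    {w : Om} (h : ∀ v, P.p v ≠ 0 → X v = X w → s v → ∃ a ∈ I, t a v) :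
    P.ce X (fun v => ind (s v)) w ≤ ∑ a ∈ I, P.ce X (fun v => ind (t a v)) w := by
  unfold FP.ce
  rw [← Finset.sum_div]
  refine div_le_div_of_nonneg_right ?_ (P.m_nonneg X w)
  rw [← P.E_sum]
  refine P.E_mono fun v hv => ?_
  beta_reduce
  rw [← Finset.mul_sum]
  by_cases hx : X v = X w
  · rw [ind_of hx, one_mul, one_mul]
    refine (ind_mono (h v hv hx)).trans (FP.ind_ex_le I fun a => t a v)
  · rw [ind_not hx, zero_mul, zero_mul]

theorem ce_ind_sum_eq (P : FP Om) (X : Om → κ) {α : Type*} (I : Finset α) (s : Om → Prop) (t : α → Om → Prop)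
    {w : Om} (h : ∀ v, P.p v ≠ 0 → X v = X w → ind (s v) = ∑ a ∈ I, ind (t a v)) :
    P.ce X (fun v => ind (s v)) w = ∑ a ∈ I, P.ce X (fun v => ind (t a v)) w := by
  unfold FP.ce
  rw [← Finset.sum_div]
  congr 1
  rw [← P.E_sum]
  refine P.E_congr fun v hv => ?_
  beta_reduce
  rw [← Finset.mul_sum]
  by_cases hx : X v = X w
  · rw [h v hv hx]
  · rw [ind_not hx, zero_mul, zero_mul]

/-- FROM CLOSENESS TO THE MASS OF A SYSTEM OF NAMES -/
theorem mass_of_close (P : FP Om) (X : Om → κ) [∀ W, Fintype (Lab W)] (lo : Wt → Finset Wt)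
    (L : (W : Wt) → Om → Lab W) (S : (W : Wt) → Lab W → Prop)
    (hlow : ∀ W, ∀ W' ∈ lo W, ∀ l l', S W' l → S W' l' → l = l')
    {G : Om → Prop} {kap : ℝ} (hk : 0 ≤ kap) {w : Om}
    (hG : ∀ v, P.p v ≠ 0 → X v = X w → G v → Close P X lo L kap v) :
    P.ce X (fun v => ind ((∀ W, S W (L W v)) ∧ G v)) w ≤ kap * ∏ W, dens P X lo L S W w := by
  classical
  set I : Finset ((W : Wt) → Lab W) := Fintype.piFinset fun W => univ.filter fun l => S W l with hI
  -- relative density of a value
  set r : (W : Wt) → Lab W → ℝ := fun W x =>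
    P.ce X (fun v => ind (L W v = x ∧ ∀ W' ∈ lo W, S W' (L W' v))) w /
      P.ce X (fun v => ind (∀ W' ∈ lo W, S W' (L W' v))) w with hr
  have hr0 : ∀ W x, 0 ≤ r W x := fun W x => div_nonneg (ce_ind_nonneg _ _ _ _) (ce_ind_nonneg _ _ _ _)
  -- one cell
  have hcell : ∀ l ∈ I, P.ce X (fun v => ind ((∀ W, L W v = l W) ∧ G v)) w ≤ kap * ∏ W, r W (l W) := by
    intro l hl
    have hl' : ∀ W, S W (l W) := fun W => by
      have := Fintype.mem_piFinset.1 hl W
      exact (mem_filter.1 this).2
    by_cases hex : ∃ v, P.p v ≠ 0 ∧ X v = X w ∧ (∀ W, L W v = l W) ∧ G v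
    · obtain ⟨v, hv, hxv, hlv, hgv⟩ := hex
      have h1 := hG v hv hxv hgv
      unfold Close at h1
      have h2 : P.ce X (fun u => ind ((∀ W, L W u = l W) ∧ G u)) w ≤
          P.ce X (fun u => ind (∀ W, L W u = L W v)) v := by
        unfold FP.ce
        rw [P.Fac_m X w v hxv.symm]
        refine div_le_div_of_nonneg_right (P.E_mono fun u _ => ?_) (P.m_nonneg X v)
        rw [hxv]
        refine mul_le_mul_of_nonneg_left (ind_mono fun h W => ?_) (ind_nonneg _)
        rw [h.1 W, hlv W]
      refine h2.trans (h1.trans (le_of_eq ?_))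
      congr 1
      refine Finset.prod_congr rfl fun W _ => ?_
      simp only [hr]
      unfold expert
      have key : ∀ u, (∀ W' ∈ lo W, L W' u = L W' v) ↔ ∀ W' ∈ lo W, S W' (L W' u) := by
        intro u
        refine forall_congr' fun W' => forall_congr' fun hW' => ?_
        constructor
        · intro h; rw [h, hlv]; exact hl' W'
        · intro h; rw [hlv]; exact hlow W W' hW' _ _ h (hl' W')
      have e1 : P.ce X (fun u => ind (L W u = L W v ∧ ∀ W' ∈ lo W, L W' u = L W' v)) v =
          P.ce X (fun u => ind (L W u = l W ∧ ∀ W' ∈ lo W, S W' (L W' u))) w := by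
        rw [P.ce_fac X _ v w hxv]
        refine ce_ind_congr P X fun u _ _ => ?_
        rw [hlv, key u]
      have e2 : P.ce X (fun u => ind (∀ W' ∈ lo W, L W' u = L W' v)) v =
          P.ce X (fun u => ind (∀ W' ∈ lo W, S W' (L W' u))) w := by
        rw [P.ce_fac X _ v w hxv]
        exact ce_ind_congr P X fun u _ _ => key u
      rw [e1, e2]
    · have h0 : P.ce X (fun v => ind ((∀ W, L W v = l W) ∧ G v)) w ≤ 0 := by
        unfold FP.ce
        rw [P.E_congr (g := fun _ => 0), P.E_const, zero_div]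
        intro v hv
        by_cases hx : X v = X w
        · have h4 : ind ((∀ W, L W v = l W) ∧ G v) = 0 := ind_not fun h => hex ⟨v, hv, hx, h.1, h.2⟩
          show ind (X v = X w) * ind ((∀ W, L W v = l W) ∧ G v) = 0
          rw [h4, mul_zero]
        · exact by rw [ind_not hx]; exact zero_mul _
      exact h0.trans (mul_nonneg hk (Finset.prod_nonneg fun W _ => hr0 W _))
  have h1 : P.ce X (fun v => ind ((∀ W, S W (L W v)) ∧ G v)) w ≤
      ∑ l ∈ I, P.ce X (fun v => ind ((∀ W, L W v = l W) ∧ G v)) w := by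
    refine ce_ind_sum_le P X I _ _ fun v _ _ h => ?_
    refine ⟨fun W => L W v, Fintype.mem_piFinset.2 fun W => mem_filter.2 ⟨mem_univ _, h.1 W⟩, fun W => rfl, h.2⟩
  refine h1.trans ((Finset.sum_le_sum hcell).trans (le_of_eq ?_))
  rw [← Finset.mul_sum]
  congr 1
  rw [hI, ← Finset.prod_univ_sum]
  refine Finset.prod_congr rfl fun W _ => ?_
  simp only [hr]
  rw [← Finset.sum_div]
  unfold dens
  congr 1
  symm
  refine ce_ind_sum_eq P X _ _ (fun x v => L W v = x ∧ ∀ W' ∈ lo W, S W' (L W' v)) fun v _ _ => ?_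
  by_cases h : S W (L W v) ∧ ∀ W' ∈ lo W, S W' (L W' v)
  · rw [ind_of h, Finset.sum_eq_single_of_mem (L W v) (mem_filter.2 ⟨mem_univ _, h.1⟩), ind_of ⟨rfl, h.2⟩]
    intro x _ hx
    exact ind_not fun hh => hx hh.1.symm
  · rw [ind_not h, Finset.sum_eq_zero]
    intro x hx
    refine ind_not fun hh => h ⟨?_, hh.2⟩
    rw [hh.1]
    exact (mem_filter.1 hx).2

end

end Pool.Agent.GM75
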