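import Pool.Agent.GMN.Coins

/-!
# GM75.SizeV (row N, 4.3): sizes of the records of `JR_v`

`ch c` = the names of a chain `c` (a name together with all lower names).  A chain is recorded at time `i` iff all its
names are.  If the sum over the chains of the products of the scales is at most `B` pathwise, then the mean number of
recorded chains (over the coins) is at most `Rr ^ D * B`, and by Markov the probability that more than `n` chains are
ever recorded is at most `Rr ^ D * B / n`.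
-/

set_option autoImplicit false
set_option linter.unusedSectionVars false

namespace Pool.Agent.GM75

open Finset Pool.Agent.PWZ Pool.Agent.M3 Pool.Agent.GMN

noncomputable section

variable {Om X C Pos : Type*} [Fintype Om] [Fintype X] [DecidableEq X] [Fintype C] [Fintype Pos] [DecidableEq Pos]

/-- number of chains recorded at time `i` -/
def nRec (ch : C → Finset X) (Z : ℕ → X → Om → ℝ) (Rr : ℝ) (f : X → ℕ) (i : ℕ) (w : Om) : ℝ :=
  ∑ c, ind (∀ x ∈ ch c, rec' Z Rr (f x) i x w)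

theorem nRec_nonneg (ch : C → Finset X) (Z : ℕ → X → Om → ℝ) (Rr : ℝ) (f : X → ℕ) (i : ℕ) (w : Om) :
    0 ≤ nRec ch Z Rr f i w := Finset.sum_nonneg fun _ _ => ind_nonneg _

/-- the number of recorded chains as the size of a finite set -/
theorem nRec_card (ch : C → Finset X) (Z : ℕ → X → Om → ℝ) (Rr : ℝ) (f : X → ℕ) (i : ℕ) (w : Om)
    [DecidablePred fun c => ∀ x ∈ ch c, rec' Z Rr (f x) i x w] :
    nRec ch Z Rr f i w = ((univ.filter fun c => ∀ x ∈ ch c, rec' Z Rr (f x) i x w).card : ℝ) := by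
  unfold nRec
  rw [Finset.card_filter]
  push_cast
  refine Finset.sum_congr rfl fun c _ => ?_
  by_cases h : ∀ x ∈ ch c, rec' Z Rr (f x) i x w
  · rw [if_pos h, ind_of h]
  · rw [if_neg h, ind_not h]

/-- records grow -/
theorem nRec_mono {ch : C → Finset X} {Z : ℕ → X → Om → ℝ} {Rr : ℝ} (hR : 0 ≤ Rr) (f : X → ℕ) {w : Om}
    (hZ : ∀ i x, Z i x w ≤ Z (i + 1) x w) {i j : ℕ} (h : i ≤ j) :
    nRec ch Z Rr f i w ≤ nRec ch Z Rr f j w := by
  have hm : ∀ x, Z i x w ≤ Z j x w := by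
    intro x
    induction j, h using Nat.le_induction with
    | base => exact le_rfl
    | succ j _ ih => exact ih.trans (hZ j x)
  refine Finset.sum_le_sum fun c _ => ind_mono fun hc x hx => ?_
  exact (hc x hx).trans (mul_le_mul_of_nonneg_left (hm x) hR)

/-- pathwise, mean over the coins -/
theorem nRec_coin {g D : ℕ} {pos : X → Pos} (hinj : Function.Injective pos) {ch : C → Finset X}
    (hD : ∀ c, (ch c).card ≤ D) {Z : ℕ → X → Om → ℝ} {Rr B : ℝ} (hR : 1 ≤ Rr) {i : ℕ} {w : Om}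
    (hZ0 : ∀ x, 0 ≤ Z i x w) (hB : ∑ c, ∏ x ∈ ch c, Z i x w ≤ B) :
    (FP.unif (Pos → Fin (2 ^ g))).E (fun a => nRec ch Z Rr (fun x => co g pos x a) i w) ≤ Rr ^ D * B := by
  have hR0 : 0 ≤ Rr := zero_le_one.trans hR
  have h1 : (FP.unif (Pos → Fin (2 ^ g))).E (fun a => nRec ch Z Rr (fun x => co g pos x a) i w) =
      ∑ c, (FP.unif (Pos → Fin (2 ^ g))).Pr (fun a => ∀ x ∈ ch c, (1 / 2 : ℝ) ^ (co g pos x a) ≤ Rr * Z i x w) := by
    unfold nRec
    rw [FP.E_sum]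
    rfl
  rw [h1]
  have h2 : ∀ c ∈ (univ : Finset C),
      (FP.unif (Pos → Fin (2 ^ g))).Pr (fun a => ∀ x ∈ ch c, (1 / 2 : ℝ) ^ (co g pos x a) ≤ Rr * Z i x w) ≤
        Rr ^ D * ∏ x ∈ ch c, Z i x w := by
    intro c _
    refine (Pr_rec_le hinj (ch c) (y := fun x => Rr * Z i x w) fun x => mul_nonneg hR0 (hZ0 x)).trans ?_
    rw [Finset.prod_mul_distrib, Finset.prod_const]
    refine mul_le_mul_of_nonneg_right (pow_le_pow_right₀ hR (hD c)) (Finset.prod_nonneg fun x _ => hZ0 x)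
  refine (Finset.sum_le_sum h2).trans ?_
  rw [← Finset.mul_sum]
  exact mul_le_mul_of_nonneg_left hB (pow_nonneg hR0 D)

/-- MEAN SIZE OF THE RECORDS -/
theorem nRec_E (P : FP Om) {g D T : ℕ} {pos : X → Pos} (hinj : Function.Injective pos) {ch : C → Finset X}
    (hD : ∀ c, (ch c).card ≤ D) {Z : ℕ → X → Om → ℝ} {Rr B : ℝ} (hR : 1 ≤ Rr) (hZ0 : ∀ i x w, 0 ≤ Z i x w)
    (hB : ∀ w, P.p w ≠ 0 → ∑ c, ∏ x ∈ ch c, Z T x w ≤ B) :
    (FP.unif (Pos → Fin (2 ^ g))).E (fun a => P.E (fun w => nRec ch Z Rr (fun x => co g pos x a) T w)) ≤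
      Rr ^ D * B := by
  rw [FP.E_swap]
  exact P.E_le_const fun w hw => nRec_coin hinj hD hR (fun x => hZ0 T x w) (hB w hw)

/-- PROBABILITY OF A LONG RECORD -/
theorem nRec_Pr (P : FP Om) {g D T : ℕ} {pos : X → Pos} (hinj : Function.Injective pos) {ch : C → Finset X}
    (hD : ∀ c, (ch c).card ≤ D) {Z : ℕ → X → Om → ℝ} {Rr B : ℝ} (hR : 1 ≤ Rr) (hZ0 : ∀ i x w, 0 ≤ Z i x w)
    (hZm : ∀ i x w, Z i x w ≤ Z (i + 1) x w) (hB : ∀ w, P.p w ≠ 0 → ∑ c, ∏ x ∈ ch c, Z T x w ≤ B) {n : ℝ}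
    (hn : 0 < n) :
    (FP.unif (Pos → Fin (2 ^ g))).E (fun a =>
      P.Pr (fun w => ∃ i ≤ T, n ≤ nRec ch Z Rr (fun x => co g pos x a) i w)) ≤ Rr ^ D * B / n := by
  have hR0 : 0 ≤ Rr := zero_le_one.trans hR
  rw [le_div_iff₀ hn, mul_comm, ← FP.E_smul]
  refine le_trans (FP.E_mono _ fun a _ => ?_) (nRec_E (g := g) P hinj hD hR hZ0 hB)
  have h1 : P.Pr (fun w => ∃ i ≤ T, n ≤ nRec ch Z Rr (fun x => co g pos x a) i w) ≤
      P.Pr (fun w => n ≤ nRec ch Z Rr (fun x => co g pos x a) T w) := by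
    refine P.Pr_mono fun w _ => ?_
    rintro ⟨i, hi, h⟩
    exact h.trans (nRec_mono hR0 _ (fun i x => hZm i x w) hi)
  refine (mul_le_mul_of_nonneg_left h1 hn.le).trans ?_
  exact P.markov (fun w _ => nRec_nonneg _ _ _ _ _ _) n

end

end Pool.Agent.GM75
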