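import Pool.Agent.GMN.JRv

/-!
# GM75.Wait (row N, N-APP 3.5): the hidden vertices which wait

In `JR_v` the names of the hidden vertex are read off the PUBLISHED labels.  Its true references `tr` are published
later: at every node at most the proportion `al` of the good hidden vertices has a true reference which is not yet
published.  Waiting is harmless because a failing hidden vertex is counted at the END of a stretch, and the ends of
the stretches of one reference are at most `Nv` in mean: the price is `#references ((1 + Db) Nv + 1) al`.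
-/

set_option autoImplicit false
set_option linter.unusedSectionVars false

namespace Pool.Agent.GM75

open Finset Pool.Agent.PWZ Pool.Agent.M3 Pool.Agent.GMN

noncomputable section

variable {Om R S X V : Type*} [Fintype Om] [Fintype R] [LinearOrder R] [Fintype X] [DecidableEq X] [Fintype V]
  {κ : ℕ → Type*}
  {P : FP Om} {K : ∀ t, Om → κ t} {ix : V → Finset X} {rf : V → R} {has : ℕ → Om → V → Prop}
  {G : ℕ → Om → Prop} {Z : ℕ → X → Om → ℝ} {Rr : ℝ} {M : Om → Mach R S} {N T g D : ℕ} {Mu Nv kap B Db : ℝ}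

/-- the true references fail -/
def FailT (ix : V → Finset X) (rf : V → R) (tr : ℕ → Om → R → Prop) (Z : ℕ → X → Om → ℝ) (Rr : ℝ)
    (M : Om → Mach R S) (N T : ℕ) (f : X → ℕ) (w : Om) : Prop :=
  ∃ n, ∃ i ≤ T, ∃ l ≤ N, (M w).Crit (fun j => Av ix rf Z Rr f j w) N n i l ∧ tr i w n

/-- the three places where a failing hidden vertex is counted, for any cumulative system of references -/
theorem fail_cases_tr {tr : ℕ → Om → R → Prop} {w : Om} {n : R} (hcum : ∀ i, tr i w n → tr (i + 1) w n)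
    {f : X → ℕ} {i l : ℕ} (hi : i ≤ T) (hl : l ≤ N)
    (hc : (M w).Crit (fun j => Av ix rf Z Rr f j w) N n i l) (hm : tr i w n) :
    (∃ t ∈ range (T + 1), EndV ix rf Z Rr M N f n t w ∧
        (∃ l ≤ N, (M w).Crit (fun j => Av ix rf Z Rr f j w) N n t l) ∧ tr t w n) ∨
      (∃ t ∈ range T, GeV ix rf Z Rr M N f n t w ∧ EndV ix rf Z Rr M N f n (t + 1) w ∧ tr t w n) ∨
      (GeV ix rf Z Rr M N f n T w ∧ tr T w n) := by
  classical
  have hmono : ∀ {j}, i ≤ j → tr j w n := by
    intro j hj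
    induction j, hj using Nat.le_induction with
    | base => exact hm
    | succ j _ ih => exact hcum j ih
  by_cases h1 : GeV ix rf Z Rr M N f n i w
  · by_cases h2 : ∃ t, i ≤ t ∧ t ≤ T ∧ ¬ GeV ix rf Z Rr M N f n t w
    · set t := Nat.find h2 with ht
      have ht1 : i ≤ t ∧ t ≤ T ∧ ¬ GeV ix rf Z Rr M N f n t w := Nat.find_spec h2
      have hit : i < t := by
        rcases Nat.lt_or_ge i t with h | h
        · exact h
        · exfalso
          have : t = i := le_antisymm h ht1.1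
          rw [this] at ht1
          exact ht1.2.2 h1
      obtain ⟨s, hs⟩ : ∃ s, t = s + 1 := ⟨t - 1, by omega⟩
      have hs1 : GeV ix rf Z Rr M N f n s w := by
        by_contra hn
        exact Nat.find_min h2 (m := s) (by omega) ⟨by omega, by omega, hn⟩
      refine Or.inr (Or.inl ⟨s, mem_range.2 (by omega), hs1, ?_, hmono (by omega)⟩)
      rw [← hs]
      exact ⟨ht1.2.2, Or.inl ⟨s, hs.symm, hs1⟩⟩
    · refine Or.inr (Or.inr ⟨?_, hmono hi⟩)
      by_contra hn
      exact h2 ⟨T, hi, le_rfl, hn⟩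
  · exact Or.inl ⟨i, mem_range.2 (by omega), ⟨h1, Or.inr ⟨l, hl, hc.oa⟩⟩, ⟨l, hl, hc⟩, hm⟩

variable (H : JRV P K ix rf has G Z Rr M N T g D Mu Nv kap B Db)
include H

/-- a waiting mass at an event of the node -/
theorem wait_at {tr : ℕ → Om → R → Prop} {al : ℝ}
    (hal : ∀ i w, P.p w ≠ 0 → ∀ n, P.ce (K i) (fun v => ind (tr i v n ∧ ¬ Tr rf has i v n ∧ G i v)) w ≤ al)
    {E : Om → Prop} {t : ℕ} (n : R) (hE : ∀ v w, K t v = K t w → (E v ↔ E w)) :
    P.Pr (fun w => E w ∧ (tr t w n ∧ ¬ Tr rf has t w n ∧ G t w)) ≤ al * P.Pr E := by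
  have h1 : P.Pr (fun w => E w ∧ (tr t w n ∧ ¬ Tr rf has t w n ∧ G t w)) =
      P.E (fun w => ind (E w) * P.ce (K t) (fun v => ind (tr t v n ∧ ¬ Tr rf has t v n ∧ G t v)) w) := by
    rw [P.E_ind_ce hE]
    unfold FP.Pr
    exact P.E_congr fun w _ => ind_and _ _
  rw [h1]
  unfold FP.Pr
  rw [← P.E_smul]
  refine P.E_mono fun w hw => ?_
  have h2 := mul_le_mul_of_nonneg_left (hal t w hw n) (ind_nonneg (E w))
  linarith

/-- the same one step later -/
theorem wait_at' {tr : ℕ → Om → R → Prop} {al : ℝ}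
    (hal : ∀ i w, P.p w ≠ 0 → ∀ n, P.ce (K i) (fun v => ind (tr i v n ∧ ¬ Tr rf has i v n ∧ G i v)) w ≤ al)
    {E : Om → Prop} {t : ℕ} (n : R) (hE : ∀ v w, K (t + 1) v = K (t + 1) w → (E v ↔ E w)) :
    P.Pr (fun w => E w ∧ (tr t w n ∧ ¬ Tr rf has t w n ∧ G t w)) ≤ Db * al * P.Pr E := by
  have h1 : P.Pr (fun w => E w ∧ (tr t w n ∧ ¬ Tr rf has t w n ∧ G t w)) =
      P.E (fun w => ind (E w) * P.ce (K (t + 1)) (fun v => ind (tr t v n ∧ ¬ Tr rf has t v n ∧ G t v)) w) := by
    rw [P.E_ind_ce hE]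
    unfold FP.Pr
    exact P.E_congr fun w _ => ind_and _ _
  rw [h1]
  unfold FP.Pr
  rw [← P.E_smul]
  refine P.E_mono fun w hw => ?_
  have h3 := H.dbl t w hw (fun v => tr t v n ∧ ¬ Tr rf has t v n ∧ G t v)
  have h4 := hal t w hw n
  have h2 := mul_le_mul_of_nonneg_left (h3.trans (mul_le_mul_of_nonneg_left h4 (zero_le_one.trans H.Db1)))
    (ind_nonneg (E w))
  linarith

/-- the number of ends of stretches of one reference -/
theorem ends_all (f : X → ℕ) (n : R) : ∑ t ∈ range (T + 1), P.Pr (EndV ix rf Z Rr M N f n t) ≤ Nv := by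
  have h := H.ends f n 0 (Nat.zero_le _) (fun _ => True) (fun _ _ _ => Iff.rfl)
  have e1 : P.Pr (fun _ : Om => True) = 1 := by
    unfold FP.Pr
    rw [P.E_congr (g := fun _ => (1 : ℝ)) fun w _ => ind_of trivial, P.E_const]
  rw [e1, mul_one] at h
  refine le_trans (le_of_eq ?_) h
  have e2 : Icc 0 T = range (T + 1) := by ext t; simp only [mem_Icc, mem_range]; omega
  rw [e2]
  refine Finset.sum_congr rfl fun t _ => P.Pr_congr fun w _ => ?_
  exact ⟨fun h => ⟨trivial, h⟩, fun h => h.2⟩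

/-- WAITING: the true references fail only if the published ones fail, up to the waiting mass -/
theorem fail_wait (f : X → ℕ) {tr : ℕ → Om → R → Prop} (hcum : ∀ i w n, tr i w n → tr (i + 1) w n) {al : ℝ}
    (hal0 : 0 ≤ al)
    (hal : ∀ i w, P.p w ≠ 0 → ∀ n, P.ce (K i) (fun v => ind (tr i v n ∧ ¬ Tr rf has i v n ∧ G i v)) w ≤ al) :
    P.Pr (fun w => FailT ix rf tr Z Rr M N T f w ∧ ∀ i ≤ T, G i w) ≤
      P.Pr (fun w => FailV ix rf has Z Rr M N T f w ∧ ∀ i ≤ T, G i w) +
        Fintype.card R * (((1 + Db) * Nv + 1) * al) := by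
  classical
  set W1 : R → ℕ → Om → Prop := fun n t w =>
    EndV ix rf Z Rr M N f n t w ∧ (tr t w n ∧ ¬ Tr rf has t w n ∧ G t w) with hW1
  set W2 : R → ℕ → Om → Prop := fun n t w =>
    EndV ix rf Z Rr M N f n (t + 1) w ∧ (tr t w n ∧ ¬ Tr rf has t w n ∧ G t w) with hW2
  set W3 : R → Om → Prop := fun n w => True ∧ (tr T w n ∧ ¬ Tr rf has T w n ∧ G T w) with hW3
  have hcov : ∀ w, P.p w ≠ 0 → (FailT ix rf tr Z Rr M N T f w ∧ ∀ i ≤ T, G i w) →
      (FailV ix rf has Z Rr M N T f w ∧ ∀ i ≤ T, G i w) ∨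
        ∃ n ∈ (univ : Finset R), ((∃ t ∈ range (T + 1), W1 n t w) ∨ (∃ t ∈ range T, W2 n t w)) ∨ W3 n w := by
    rintro w hw ⟨⟨n, i, hi, l, hl, hc, hm⟩, hG⟩
    rcases fail_cases_tr (tr := tr) (fun i => hcum i w n) hi hl hc hm with ⟨t, ht, he, ⟨l', hl', hc'⟩, hh⟩ |
      ⟨t, ht, hg, he, hh⟩ | ⟨hg, hh⟩
    · have ht' := mem_range.1 ht
      by_cases hp : Tr rf has t w n
      · exact Or.inl ⟨⟨n, t, by omega, l', hl', hc', hp⟩, hG⟩
      · exact Or.inr ⟨n, mem_univ _, Or.inl (Or.inl ⟨t, ht, he, hh, hp, hG t (by omega)⟩)⟩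
    · have ht' := mem_range.1 ht
      by_cases hp : Tr rf has t w n
      · exact Or.inl ⟨⟨n, t, by omega, N, le_rfl, H.Ge_crit hw (by omega) hg, hp⟩, hG⟩
      · exact Or.inr ⟨n, mem_univ _, Or.inl (Or.inr ⟨t, ht, he, hh, hp, hG t (by omega)⟩)⟩
    · by_cases hp : Tr rf has T w n
      · exact Or.inl ⟨⟨n, T, le_rfl, N, le_rfl, H.Ge_crit hw le_rfl hg, hp⟩, hG⟩
      · exact Or.inr ⟨n, mem_univ _, Or.inr ⟨trivial, hh, hp, hG T le_rfl⟩⟩
  refine (P.Pr_mono hcov).trans ((P.Pr_or_le _ _).trans (add_le_add le_rfl ?_))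
  refine (P.Pr_ex_le _ _).trans ?_
  have hone : ∀ n ∈ (univ : Finset R),
      P.Pr (fun w => ((∃ t ∈ range (T + 1), W1 n t w) ∨ (∃ t ∈ range T, W2 n t w)) ∨ W3 n w) ≤
        ((1 + Db) * Nv + 1) * al := by
    intro n _
    have hends := ends_all H f n
    have b1 : ∑ t ∈ range (T + 1), P.Pr (W1 n t) ≤ al * Nv := by
      refine le_trans (Finset.sum_le_sum fun t _ => wait_at H hal n (H.EndV_fac f n t)) ?_
      rw [← Finset.mul_sum]
      exact mul_le_mul_of_nonneg_left hends hal0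
    have b2 : ∑ t ∈ range T, P.Pr (W2 n t) ≤ Db * al * Nv := by
      refine le_trans (Finset.sum_le_sum fun t _ => wait_at' H hal n (H.EndV_fac f n (t + 1))) ?_
      rw [← Finset.mul_sum]
      refine mul_le_mul_of_nonneg_left ?_ (mul_nonneg (zero_le_one.trans H.Db1) hal0)
      refine le_trans ?_ hends
      rw [Finset.sum_range_succ' (fun t => P.Pr (EndV ix rf Z Rr M N f n t)) T]
      have := P.Pr_nonneg (EndV ix rf Z Rr M N f n 0)
      linarith
    have b3 : P.Pr (W3 n) ≤ al := by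
      have := wait_at H hal (E := fun _ => True) (t := T) n (fun _ _ _ => Iff.rfl)
      refine this.trans ?_
      have h1 := P.Pr_le_one (fun _ : Om => True)
      nlinarith
    refine ((P.Pr_or_le _ _).trans (add_le_add ((P.Pr_or_le _ _).trans (add_le_add (P.Pr_ex_le _ _)
      (P.Pr_ex_le _ _))) le_rfl)).trans ?_
    have h := add_le_add (add_le_add b1 b2) b3
    refine h.trans (le_of_eq ?_)
    ring
  refine (Finset.sum_le_sum hone).trans (le_of_eq ?_)
  rw [Finset.sum_const, Finset.card_univ, nsmul_eq_mul]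

end

end Pool.Agent.GM75
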